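import Pool.Agent.H211.CH.Stm

/-!
# Engstrom's theorem on right factors
-/

set_option autoImplicit false
set_option linter.unusedSectionVars false
set_option linter.unusedVariables false
set_option linter.style.haveILetI false

open Polynomial

namespace Pool.Agent.H264.CH211

open Pool.Agent.H211.CH

universe u

section lb

variable {K : Type u} [Field K]

/-- The coefficients below `m` are zero. -/
def lb (m : ℤ) (x : LaurentSeries K) : Prop := ∀ j : ℤ, j < m → x.coeff j = 0

theorem lb_mul {m n : ℤ} {x y : LaurentSeries K} (hx : lb m x) (hy : lb n y) :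
    lb (m + n) (x * y) := by
  intro j hj
  rw [HahnSeries.coeff_mul]
  refine Finset.sum_eq_zero fun ij hij => ?_
  have h1 : ij.1 + ij.2 = j := by
    rw [Finset.mem_antidiagonal] at hij
    exact hij.2.2
  by_cases h2 : ij.1 < m
  · rw [hx _ h2, zero_mul]
  · rw [hy ij.2 (by omega), mul_zero]

theorem lb_sum {ι : Type*} {s : Finset ι} {m : ℤ} {f : ι → LaurentSeries K}
    (h : ∀ i ∈ s, lb m (f i)) : lb m (∑ i ∈ s, f i) := by
  intro j hj
  rw [HahnSeries.coeff_sum]
  exact Finset.sum_eq_zero fun i hi => h i hi j hj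

theorem lb_mono {m n : ℤ} {x : LaurentSeries K} (h : m ≤ n) (hx : lb n x) : lb m x :=
  fun j hj => hx j (by omega)

theorem lb_zero (m : ℤ) : lb m (0 : LaurentSeries K) := fun j _ => HahnSeries.coeff_zero

theorem lb_one : lb 0 (1 : LaurentSeries K) := by
  intro j hj
  rw [HahnSeries.coeff_one, if_neg (by omega)]

/-- Polynomials over the Laurent series whose coefficients have bounded orders. -/
def pb (k : ℤ) (Q : (LaurentSeries K)[X]) : Prop := ∀ i : ℕ, lb ((i : ℤ) - k) (Q.coeff i)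

theorem pb_mul {k l : ℤ} {P Q : (LaurentSeries K)[X]} (hP : pb k P) (hQ : pb l Q) :
    pb (k + l) (P * Q) := by
  intro i
  rw [coeff_mul]
  refine lb_sum fun ab hab => ?_
  have h1 : ab.1 + ab.2 = i := Finset.HasAntidiagonal.mem_antidiagonal.1 hab
  refine lb_mono ?_ (lb_mul (hP ab.1) (hQ ab.2))
  have h2 : (ab.1 : ℤ) + ab.2 = i := by exact_mod_cast h1
  omega

theorem pb_one : pb 0 (1 : (LaurentSeries K)[X]) := by
  intro i
  rw [coeff_one]
  split_ifs with h
  · subst h
    exact lb_mono (by simp) lb_one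
  · exact lb_zero _

theorem pb_lin {x : LaurentSeries K} (hx : lb (-1) x) : pb 1 (X - C x) := by
  intro i
  rw [coeff_sub, coeff_X, coeff_C]
  rcases Nat.eq_zero_or_pos i with h | h
  · subst h
    rw [if_neg (by omega), if_pos rfl, zero_sub]
    intro j hj
    rw [HahnSeries.coeff_neg, hx j (by push_cast at hj; omega), neg_zero]
  · rw [if_neg (by omega : ¬ i = 0), sub_zero]
    split_ifs with h1
    · subst h1
      exact lb_mono (by simp) lb_one
    · exact lb_zero _

theorem pb_prod {ι : Type*} (s : Finset ι) (f : ι → LaurentSeries K)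
    (h : ∀ i ∈ s, lb (-1) (f i)) : pb s.card (∏ i ∈ s, (X - C (f i))) := by
  classical
  induction s using Finset.induction_on with
  | empty =>
    rw [Finset.prod_empty, Finset.card_empty]
    exact pb_one
  | insert a s ha ih =>
    rw [Finset.prod_insert ha, Finset.card_insert_of_notMem ha]
    have h1 := pb_mul (pb_lin (h a (Finset.mem_insert_self a s)))
      (ih fun i hi => h i (Finset.mem_insert_of_mem hi))
    have h2 : ((s.card + 1 : ℕ) : ℤ) = 1 + (s.card : ℤ) := by push_cast; ring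
    rw [h2]
    exact h1

end lb

section desc

/-- Extension of homomorphisms to the field of fractions. -/
theorem exists_lift {R : Type u} {E : Type u} [CommRing R] [IsDomain R] [Field E] (φ : R →+* E)
    (hφ : Function.Injective φ) :
    ∃ ψ : FractionRing R →+* E, ψ.comp (algebraMap R (FractionRing R)) = φ :=
  ⟨IsFractionRing.lift hφ, RingHom.ext fun x => IsFractionRing.lift_algebraMap hφ x⟩

/-- Descent of greatest common divisors. -/
theorem gcd_desc {R : Type u} {E : Type u} [CommRing R] [IsDomain R] [IsIntegrallyClosed R]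
    [Field E] (φ : R →+* E) (hφ : Function.Injective φ) {p : R[X]} (hp : p.Monic) (q : R[X])
    (G : E[X]) (hG : G.Monic) (P Q : E[X]) (hPQ : IsCoprime P Q) (h1 : p.map φ = G * P)
    (h2 : q.map φ = G * Q) : ∃ g : R[X], g.map φ = G := by
  classical
  obtain ⟨ψ, hψ⟩ := exists_lift φ hφ
  obtain ⟨pF, hpF⟩ : ∃ pF, pF = p.map (algebraMap R (FractionRing R)) := ⟨_, rfl⟩
  obtain ⟨qF, hqF⟩ : ∃ qF, qF = q.map (algebraMap R (FractionRing R)) := ⟨_, rfl⟩
  have hp' : pF.map ψ = G * P := by rw [hpF, map_map, hψ, h1]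
  have hq' : qF.map ψ = G * Q := by rw [hqF, map_map, hψ, h2]
  have hpm : pF.Monic := by
    rw [hpF]
    exact hp.map _
  obtain ⟨gF, hgF⟩ : ∃ gF, gF = EuclideanDomain.gcd pF qF := ⟨_, rfl⟩
  have hgd : EuclideanDomain.gcd (pF.map ψ) (qF.map ψ) = gF.map ψ := by
    rw [hgF]
    exact gcd_map ψ
  have hgl : gF ∣ pF := by
    rw [hgF]
    exact EuclideanDomain.gcd_dvd_left pF qF
  have hg0 : gF ≠ 0 := by
    rintro rfl
    rw [zero_dvd_iff] at hgl
    exact hpm.ne_zero hgl
  have hass : Associated (gF.map ψ) G := by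
    rw [← hgd, hp', hq']
    refine associated_of_dvd_dvd ?_ ?_
    · obtain ⟨u, v, huv⟩ := hPQ
      have h3 : G = u * (G * P) + v * (G * Q) := by
        linear_combination (-G) * huv
      have h4 := EuclideanDomain.gcd_dvd_left (G * P) (G * Q)
      have h5 := EuclideanDomain.gcd_dvd_right (G * P) (G * Q)
      have h6 : EuclideanDomain.gcd (G * P) (G * Q) ∣ u * (G * P) + v * (G * Q) :=
        dvd_add (h4.mul_left u) (h5.mul_left v)
      rwa [← h3] at h6
    · exact EuclideanDomain.dvd_gcd ⟨P, rfl⟩ ⟨Q, rfl⟩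
  have hunit : IsUnit (C gF.leadingCoeff⁻¹) :=
    isUnit_C.2 (IsUnit.mk0 _ (inv_ne_zero (leadingCoeff_ne_zero.2 hg0)))
  obtain ⟨g1, hg1⟩ : ∃ g1, g1 = gF * C gF.leadingCoeff⁻¹ := ⟨_, rfl⟩
  have hg1m : g1.Monic := by
    rw [hg1]
    exact monic_mul_leadingCoeff_inv hg0
  have hg1a : Associated g1 gF := by
    rw [hg1]
    exact associated_mul_unit_left gF _ hunit
  have hmap : g1.map ψ = G := by
    refine eq_of_monic_of_associated (hg1m.map ψ) hG (Associated.trans ?_ hass)
    rw [hg1, Polynomial.map_mul]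
    exact associated_mul_unit_left _ _ (hunit.map (mapRingHom ψ))
  have hdvd : g1 ∣ p.map (algebraMap R (FractionRing R)) := by
    rw [← hpF]
    exact hg1a.dvd.trans hgl
  obtain ⟨g, hg⟩ := IsIntegrallyClosed.eq_map_mul_C_of_dvd (FractionRing R) hp hdvd
  rw [hg1m.leadingCoeff, C_1, mul_one] at hg
  refine ⟨g, ?_⟩
  rw [← hψ, ← map_map, hg, hmap]

end desc

section main

variable {K : Type u} [Field K] [IsAlgClosed K] [CharZero K]

section pui

variable {f : K[X]} {th : LaurentSeries K} {r : K → (LaurentSeries K →ₐ[K] LaurentSeries K)}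

omit [IsAlgClosed K] [CharZero K] in
theorem r_one (hP : Pui f th r) (s : LaurentSeries K) : r 1 s = s := by
  ext k
  rw [hP.rot 1 one_ne_zero, one_zpow, one_mul]

omit [IsAlgClosed K] [CharZero K] in
theorem r_mul (hP : Pui f th r) {ζ ω : K} (hζ : ζ ≠ 0) (hω : ω ≠ 0) (s : LaurentSeries K) :
    r ζ (r ω s) = r (ζ * ω) s := by
  ext k
  rw [hP.rot ζ hζ, hP.rot ω hω, hP.rot (ζ * ω) (mul_ne_zero hζ hω), mul_zpow, mul_assoc]

omit [IsAlgClosed K] [CharZero K] in
theorem r_inj (hP : Pui f th r) {ζ ω : K} (hζ : ζ ≠ 0) (hω : ω ≠ 0) (h : r ζ th = r ω th) :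
    ζ = ω := by
  have h1 := congrArg (fun s : LaurentSeries K => s.coeff (-1)) h
  simp only [hP.rot ζ hζ, hP.rot ω hω, hP.one, mul_one, zpow_neg_one] at h1
  exact inv_injective h1

omit [IsAlgClosed K] [CharZero K] in
theorem r_lb (hP : Pui f th r) {ω : K} (hω : ω ≠ 0) : lb (-1) (r ω th) := by
  intro j hj
  rw [hP.rot ω hω, hP.low j hj, mul_zero]

omit [IsAlgClosed K] [CharZero K] in
theorem ne_zero_of_mem {n : ℕ} (hn : 0 < n) {ω : K} (h : ω ∈ nthRootsFinset n (1 : K)) :
    ω ≠ 0 := by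
  rw [mem_nthRootsFinset hn] at h
  rintro rfl
  rw [zero_pow hn.ne'] at h
  exact zero_ne_one h

/-- The polynomial whose roots are the conjugates of `th`. -/
noncomputable def GG (th : LaurentSeries K) (r : K → (LaurentSeries K →ₐ[K] LaurentSeries K))
    (s : ℕ) : (LaurentSeries K)[X] := ∏ ω ∈ nthRootsFinset s (1 : K), (X - C (r ω th))

omit [IsAlgClosed K] [CharZero K] in
theorem GG_monic (s : ℕ) : (GG th r s).Monic := monic_prod_of_monic _ _ fun _ _ => monic_X_sub_C _

theorem card_roots (s : ℕ) (hs : 0 < s) : (nthRootsFinset s (1 : K)).card = s := by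
  haveI : NeZero s := ⟨hs.ne'⟩
  obtain ⟨ζ, hζ⟩ := HasEnoughRootsOfUnity.exists_primitiveRoot K s
  exact hζ.card_nthRootsFinset

theorem GG_natDegree (s : ℕ) (hs : 0 < s) : (GG th r s).natDegree = s := by
  unfold GG
  rw [natDegree_finsetProd_X_sub_C_eq_card, card_roots s hs]

omit [IsAlgClosed K] [CharZero K] in
theorem GG_map (hP : Pui f th r) (s : ℕ) (hs : 0 < s) {ζ : K}
    (hζ : ζ ∈ nthRootsFinset s (1 : K)) :
    (GG th r s).map (r ζ : LaurentSeries K →+* LaurentSeries K) = GG th r s := by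
  have hζ0 := ne_zero_of_mem hs hζ
  unfold GG
  rw [Polynomial.map_prod]
  refine Finset.prod_bij' (fun ω _ => ζ * ω) (fun ω _ => ζ⁻¹ * ω) ?_ ?_ ?_ ?_ ?_
  · intro ω hω
    rw [mem_nthRootsFinset hs] at hζ hω ⊢
    rw [mul_pow, hζ, hω, one_mul]
  · intro ω hω
    rw [mem_nthRootsFinset hs] at hζ hω ⊢
    rw [mul_pow, inv_pow, hζ, hω, inv_one, one_mul]
  · intro ω _
    rw [inv_mul_cancel_left₀ hζ0]
  · intro ω _
    rw [mul_inv_cancel_left₀ hζ0]
  · intro ω hω
    rw [Polynomial.map_sub, map_X, map_C, ← r_mul hP hζ0 (ne_zero_of_mem hs hω)]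
    rfl

/-- The coefficients of `GG` have no terms with negative exponents. -/
theorem GG_coeff (hP : Pui f th r) (s : ℕ) (hs : 0 < s) (i : ℕ) (hi : 0 < i) (j : ℤ)
    (hj : j < 0) : ((GG th r s).coeff i).coeff j = 0 := by
  by_contra hne
  have h1 : pb s (GG th r s) := by
    have h2 := pb_prod (nthRootsFinset s (1 : K)) (fun ω => r ω th)
      fun ω hω => r_lb hP (ne_zero_of_mem hs hω)
    rw [card_roots s hs] at h2
    exact h2
  have h2 : (i : ℤ) - s ≤ j := by
    by_contra h3
    exact hne (h1 i j (by omega))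
  haveI : NeZero s := ⟨hs.ne'⟩
  obtain ⟨ζ, hζ⟩ := HasEnoughRootsOfUnity.exists_primitiveRoot K s
  have hζm : ζ ∈ nthRootsFinset s (1 : K) := by
    rw [mem_nthRootsFinset hs]
    exact hζ.pow_eq_one
  have h3 := congrArg (fun Q : (LaurentSeries K)[X] => (Q.coeff i).coeff j)
    (GG_map hP s hs hζm)
  simp only [coeff_map] at h3
  have h4 : (r ζ ((GG th r s).coeff i)).coeff j = ((GG th r s).coeff i).coeff j := h3
  rw [hP.rot ζ (ne_zero_of_mem hs hζm)] at h4
  have h5 : ζ ^ j = 1 := mul_right_cancel₀ hne (by rw [h4, one_mul])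
  rw [hζ.zpow_eq_one_iff_dvd] at h5
  obtain ⟨q, hq⟩ := h5
  have h6 : (s : ℤ) * q < 0 := by rw [← hq]; exact hj
  have h7 : q < 0 := by
    by_contra h8
    push Not at h8
    have h9 : 0 ≤ (s : ℤ) * q := mul_nonneg (by positivity) h8
    omega
  have h8 : (s : ℤ) * q ≤ (s : ℤ) * (-1) := mul_le_mul_of_nonneg_left (by omega) (by positivity)
  omega

end pui

/-- The polynomial `B (T) - B (t)`. -/
noncomputable def PB (B : K[X]) : K[X][X] := B.map C - C B

omit [IsAlgClosed K] [CharZero K] in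
theorem PB_monic {B : K[X]} (hB : B.Monic) (hb : 0 < B.natDegree) : (PB B).Monic := by
  unfold PB
  refine (hB.map C).sub_of_left ?_
  rw [degree_map_eq_of_injective C_injective, degree_eq_natDegree hB.ne_zero]
  refine lt_of_le_of_lt degree_C_le ?_
  exact_mod_cast hb

omit [IsAlgClosed K] [CharZero K] in
theorem PB_map (B : K[X]) (th : LaurentSeries K) :
    (PB B).map ((aeval th : K[X] →ₐ[K] LaurentSeries K) : K[X] →+* LaurentSeries K) =
      B.map (algebraMap K (LaurentSeries K)) - C (aeval th B) := by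
  unfold PB
  rw [Polynomial.map_sub, map_C, map_map]
  congr 2
  ext x
  simp

/-- The greatest common divisor of the products is the product over the common index set. -/
theorem gcd_prod {f : K[X]} {th : LaurentSeries K}
    {r : K → (LaurentSeries K →ₐ[K] LaurentSeries K)} (hP : Pui f th r) (b d : ℕ) (hb : 0 < b)
    (hd : 0 < d) : ∃ P Q : (LaurentSeries K)[X], IsCoprime P Q ∧
      GG th r b = GG th r (Nat.gcd b d) * P ∧ GG th r d = GG th r (Nat.gcd b d) * Q := by
  classical
  have hs : 0 < Nat.gcd b d := Nat.gcd_pos_of_pos_left d hb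
  have hsub1 : nthRootsFinset (Nat.gcd b d) (1 : K) ⊆ nthRootsFinset b (1 : K) := by
    intro ω hω
    rw [mem_nthRootsFinset hs, pow_gcd_eq_one] at hω
    rw [mem_nthRootsFinset hb]
    exact hω.1
  have hsub2 : nthRootsFinset (Nat.gcd b d) (1 : K) ⊆ nthRootsFinset d (1 : K) := by
    intro ω hω
    rw [mem_nthRootsFinset hs, pow_gcd_eq_one] at hω
    rw [mem_nthRootsFinset hd]
    exact hω.2
  refine ⟨∏ ω ∈ nthRootsFinset b (1 : K) \ nthRootsFinset (Nat.gcd b d) (1 : K),
    (X - C (r ω th)), ∏ ω ∈ nthRootsFinset d (1 : K) \ nthRootsFinset (Nat.gcd b d) (1 : K),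
    (X - C (r ω th)), ?_, ?_, ?_⟩
  · refine IsCoprime.prod_left fun ω hω => IsCoprime.prod_right fun ω' hω' => ?_
    rw [Finset.mem_sdiff] at hω hω'
    refine isCoprime_X_sub_C_of_isUnit_sub (IsUnit.mk0 _ (sub_ne_zero.2 fun h => ?_))
    have h1 := r_inj hP (ne_zero_of_mem hb hω.1) (ne_zero_of_mem hd hω'.1) h
    subst h1
    apply hω.2
    rw [mem_nthRootsFinset hs, pow_gcd_eq_one]
    exact ⟨(mem_nthRootsFinset hb _).1 hω.1, (mem_nthRootsFinset hd _).1 hω'.1⟩
  · unfold GG
    rw [mul_comm, Finset.prod_sdiff hsub1]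
  · unfold GG
    rw [mul_comm, Finset.prod_sdiff hsub2]

/-- The product is the image of a polynomial over `K[t]`. -/
theorem exists_g {f : K[X]} {th : LaurentSeries K}
    {r : K → (LaurentSeries K →ₐ[K] LaurentSeries K)} (hP : Pui f th r)
    (hinj : Function.Injective (aeval th : K[X] →ₐ[K] LaurentSeries K)) {B B' : K[X]}
    (hB : B.Monic) (hB' : B'.Monic) (hb : 0 < B.natDegree) (hd : 0 < B'.natDegree)
    (h1 : B.map (algebraMap K (LaurentSeries K)) - C (aeval th B) = GG th r B.natDegree)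
    (h2 : B'.map (algebraMap K (LaurentSeries K)) - C (aeval th B') = GG th r B'.natDegree) :
    ∃ g : K[X][X],
      g.map ((aeval th : K[X] →ₐ[K] LaurentSeries K) : K[X] →+* LaurentSeries K) =
        GG th r (Nat.gcd B.natDegree B'.natDegree) := by
  obtain ⟨P, Q, hPQ, hbP, hdQ⟩ := gcd_prod hP B.natDegree B'.natDegree hb hd
  exact gcd_desc ((aeval th : K[X] →ₐ[K] LaurentSeries K) : K[X] →+* LaurentSeries K) hinj
    (PB_monic hB hb) (PB B') _ (GG_monic _) P Q hPQ
    (by rw [← hbP, ← h1]; exact PB_map B th) (by rw [← hdQ, ← h2]; exact PB_map B' th)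

/-- The monic case. -/
theorem er_monic (hPui : S_PUI K) (hR : S_ROOTS K) (hI : S_INV K) (A B A' B' : K[X])
    (ha : 0 < A.natDegree) (hb : 0 < B.natDegree) (ha' : 0 < A'.natDegree)
    (hd : 0 < B'.natDegree) (hB : B.Monic) (hB' : B'.Monic) (hf : (A.comp B).Monic)
    (h : A.comp B = A'.comp B') :
    ∃ V W W' : K[X], V.natDegree = Nat.gcd B.natDegree B'.natDegree ∧ B = W.comp V ∧
      B' = W'.comp V := by
  have hfd : 0 < (A.comp B).natDegree := by
    rw [natDegree_comp]
    exact Nat.mul_pos ha hb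
  obtain ⟨th, r, hP⟩ := hPui _ hf hfd
  obtain ⟨hord, hroots⟩ := hR _ th r hP hf
  have h1 := hroots A B hB hb ha rfl
  have h2 := hroots A' B' hB' hd ha' h.symm
  have hinj : Function.Injective (aeval th : K[X] →ₐ[K] LaurentSeries K) := by
    rw [injective_iff_map_eq_zero]
    intro p hp
    by_contra hp0
    have h3 := (hord p hp0).2
    rw [hp, HahnSeries.coeff_zero] at h3
    exact hp0 (leadingCoeff_eq_zero.1 h3.symm)
  obtain ⟨g, hg⟩ := exists_g hP hinj hB hB' hb hd h1 h2
  set s := Nat.gcd B.natDegree B'.natDegree with hsdef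
  have hs : 0 < s := Nat.gcd_pos_of_pos_left _ hb
  set φ : K[X] →+* LaurentSeries K :=
    ((aeval th : K[X] →ₐ[K] LaurentSeries K) : K[X] →+* LaurentSeries K) with hφ
  have hφi : Function.Injective φ := hinj
  have hgm : g.Monic := monic_of_injective hφi (by rw [hg]; exact GG_monic s)
  have hgd : g.natDegree = s := by
    rw [← natDegree_map_eq_of_injective hφi g, hg, GG_natDegree s hs]
  have hcoeff : ∀ i : ℕ, 0 < i → g.coeff i = C ((g.coeff i).coeff 0) := by
    intro i hi
    apply eq_C_of_natDegree_eq_zero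
    by_contra hne
    have h3 : g.coeff i ≠ 0 := by
      intro h4
      rw [h4, natDegree_zero] at hne
      exact hne rfl
    have h4 := (hord (g.coeff i) h3).2
    have h5 : aeval th (g.coeff i) = (GG th r s).coeff i := by
      rw [← hg, coeff_map]
      rfl
    rw [h5, GG_coeff hP s hs i hi _ (by omega)] at h4
    exact h3 (leadingCoeff_eq_zero.1 h4.symm)
  -- the polynomial `V`
  let V0 : K[X] := g.map constantCoeff
  let V : K[X] := V0 - C (V0.coeff 0)
  have hV0 : V0.natDegree = s := by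
    rw [← hgd]
    exact hgm.natDegree_map _
  have hVd : V.natDegree = s := by
    rw [← hV0]
    exact natDegree_sub_C
  have hGV : GG th r s = V.map (algebraMap K (LaurentSeries K)) + C (aeval th (g.coeff 0)) := by
    ext1 i
    rw [coeff_add, coeff_map, coeff_C, ← hg, coeff_map]
    rcases Nat.eq_zero_or_pos i with hi | hi
    · subst hi
      rw [if_pos rfl]
      have h3 : V.coeff 0 = 0 := by
        change (V0 - C (V0.coeff 0)).coeff 0 = 0
        rw [coeff_sub, coeff_C_zero, sub_self]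
      rw [h3, map_zero, zero_add]
      rfl
    · rw [if_neg (by omega), add_zero]
      have h3 : V.coeff i = (g.coeff i).coeff 0 := by
        change (V0 - C (V0.coeff 0)).coeff i = _
        rw [coeff_sub, coeff_C_of_ne_zero (by omega), sub_zero]
        change (g.map constantCoeff).coeff i = _
        rw [coeff_map]
        rfl
      rw [h3]
      conv_lhs => rw [hcoeff i hi]
      exact aeval_C th _
  have hroot : ∀ ω ∈ nthRootsFinset s (1 : K),
      aeval (r ω th) V = -aeval th (g.coeff 0) := by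
    intro ω hω
    have h3 : (GG th r s).eval (r ω th) = 0 := by
      unfold GG
      rw [eval_prod]
      refine Finset.prod_eq_zero hω ?_
      rw [eval_sub, eval_X, eval_C, sub_self]
    rw [hGV, eval_add, eval_C, eval_map_algebraMap] at h3
    exact eq_neg_of_add_eq_zero_left h3
  have hone : (1 : K) ∈ nthRootsFinset s (1 : K) := by
    rw [mem_nthRootsFinset hs, one_pow]
  have hVinv : ∀ ω ∈ nthRootsFinset V.natDegree (1 : K), aeval (r ω th) V = aeval th V := by
    intro ω hω
    rw [hVd] at hω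
    rw [hroot ω hω, ← hroot 1 hone, r_one hP]
  have hBinv : ∀ (D : K[X]), 0 < D.natDegree → s ∣ D.natDegree →
      D.map (algebraMap K (LaurentSeries K)) - C (aeval th D) = GG th r D.natDegree →
      ∀ ω ∈ nthRootsFinset V.natDegree (1 : K), aeval (r ω th) D = aeval th D := by
    intro D hD hsD hDG ω hω
    rw [hVd, mem_nthRootsFinset hs] at hω
    have h3 : ω ∈ nthRootsFinset D.natDegree (1 : K) := by
      rw [mem_nthRootsFinset hD]
      obtain ⟨q, hq⟩ := hsD
      rw [hq, pow_mul, hω, one_pow]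
    have h4 : (GG th r D.natDegree).eval (r ω th) = 0 := by
      unfold GG
      rw [eval_prod]
      refine Finset.prod_eq_zero h3 ?_
      rw [eval_sub, eval_X, eval_C, sub_self]
    rw [← hDG, eval_sub, eval_C, eval_map_algebraMap] at h4
    exact sub_eq_zero.1 h4
  have hVpos : 0 < V.natDegree := by rw [hVd]; exact hs
  obtain ⟨W, hW⟩ := hI _ th r hP hf V B hVpos hVinv
    (hBinv B hb (Nat.gcd_dvd_left _ _) h1)
  obtain ⟨W', hW'⟩ := hI _ th r hP hf V B' hVpos hVinv
    (hBinv B' hd (Nat.gcd_dvd_right _ _) h2)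
  exact ⟨V, W, W', hVd, hW, hW'⟩

theorem t_ER (hPui : S_PUI K) (hR : S_ROOTS K) (hI : S_INV K) : S_ER K := by
  intro A B A' B' ha hb ha' hd h hs
  have hB0 : B ≠ 0 := by
    rintro rfl
    simp at hb
  have hD0 : B' ≠ 0 := by
    rintro rfl
    simp at hd
  have hβ : B.leadingCoeff ≠ 0 := leadingCoeff_ne_zero.2 hB0
  have hδ : B'.leadingCoeff ≠ 0 := leadingCoeff_ne_zero.2 hD0
  set β := B.leadingCoeff with hβdef
  set δ := B'.leadingCoeff with hδdef
  set c := (A.comp B).leadingCoeff with hc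
  have hf0 : A.comp B ≠ 0 := by
    intro h1
    have h2 : (A.comp B).natDegree = 0 := by rw [h1, natDegree_zero]
    rw [natDegree_comp] at h2
    have h3 := Nat.mul_pos ha hb
    omega
  have hc0 : c ≠ 0 := leadingCoeff_ne_zero.2 hf0
  have hcomp : ∀ (P D : K[X]) (e : K), e ≠ 0 →
      (C c⁻¹ * P.comp (C e * X)).comp (C e⁻¹ * D) = C c⁻¹ * P.comp D := by
    intro P D e he
    rw [mul_comp, C_comp, comp_assoc, mul_comp, C_comp, X_comp, ← mul_assoc, ← C_mul,
      mul_inv_cancel₀ he, C_1, one_mul]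
  have hdeg1 : ∀ (D : K[X]) (e : K), e ≠ 0 → (C e * D).natDegree = D.natDegree := by
    intro D e he
    exact natDegree_C_mul he
  have hdeg2 : ∀ (P : K[X]) (e : K), e ≠ 0 →
      (C c⁻¹ * P.comp (C e * X)).natDegree = P.natDegree := by
    intro P e he
    rw [natDegree_C_mul (inv_ne_zero hc0), natDegree_comp, natDegree_C_mul he, natDegree_X,
      mul_one]
  have hmon : ∀ D : K[X], D ≠ 0 → (C D.leadingCoeff⁻¹ * D).Monic := by
    intro D hD
    rw [mul_comm]
    exact monic_mul_leadingCoeff_inv hD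
  obtain ⟨V, W, W', hV, hW, hW'⟩ := er_monic hPui hR hI (C c⁻¹ * A.comp (C β * X)) (C β⁻¹ * B)
    (C c⁻¹ * A'.comp (C δ * X)) (C δ⁻¹ * B') (by rw [hdeg2 A β hβ]; exact ha)
    (by rw [hdeg1 B _ (inv_ne_zero hβ)]; exact hb) (by rw [hdeg2 A' δ hδ]; exact ha')
    (by rw [hdeg1 B' _ (inv_ne_zero hδ)]; exact hd) (hmon B hB0) (hmon B' hD0)
    (by rw [hcomp A B β hβ]; exact hmon _ hf0) (by rw [hcomp A B β hβ, hcomp A' B' δ hδ, h])
  refine ⟨V, C β * W, C δ * W', ?_, ?_, ?_⟩
  · rw [hV, hdeg1 B _ (inv_ne_zero hβ), hdeg1 B' _ (inv_ne_zero hδ)]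
    exact hs
  · rw [mul_comp, C_comp, ← hW, ← mul_assoc, ← C_mul, mul_inv_cancel₀ hβ, C_1, one_mul]
  · rw [mul_comp, C_comp, ← hW', ← mul_assoc, ← C_mul, mul_inv_cancel₀ hδ, C_1, one_mul]

end main

end Pool.Agent.H264.CH211
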